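import Pool.Agent.Helper45.CF.GoalsC

/-!
# Packet CF2-SEPM (MP_d97caa_an): the CAR algebra is separable
-/

set_option autoImplicit false

open TopologicalSpace

namespace Pool.Agent.Helper59.CF2.SEPM

open Pool.Agent.Helper34.CAR Pool.Agent.Helper45.CF

theorem sep_range {M : Type} [CStarAlgebra M] (n : ℕ)
    (j : CStarMatrix (Fin n) (Fin n) ℂ →⋆ₐ[ℂ] M) : IsSeparable (Set.range j) := by
  have hf : FiniteDimensional ℂ (CStarMatrix (Fin n) (Fin n) ℂ) :=
    inferInstanceAs (FiniteDimensional ℂ (Matrix (Fin n) (Fin n) ℂ))
  let l : CStarMatrix (Fin n) (Fin n) ℂ →ₗ[ℂ] M :=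
    { toFun := j
      map_add' := map_add j
      map_smul' := fun c x => map_smul j c x }
  have hV : FiniteDimensional ℂ (LinearMap.range l) := inferInstance
  have hp : ProperSpace (LinearMap.range l) := FiniteDimensional.proper ℂ _
  have hc : SecondCountableTopology (LinearMap.range l) := secondCountable_of_proper
  have hs : SeparableSpace (LinearMap.range l) := inferInstance
  have h1 : IsSeparable ((LinearMap.range l : Submodule ℂ M) : Set M) := by
    have : SeparableSpace ((LinearMap.range l : Submodule ℂ M) : Set M) := hs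
    exact IsSeparable.of_subtype _
  have h2 : ((LinearMap.range l : Submodule ℂ M) : Set M) = Set.range j := by
    ext x
    simp only [SetLike.mem_coe, LinearMap.mem_range, Set.mem_range]
    rfl
  rwa [h2] at h1

theorem t : S_SEPM := by
  intro M _ hM
  obtain ⟨e, j, -, -, -, hd⟩ := hM
  have h2 : IsSeparable (⋃ i, Set.range (j i)) := IsSeparable.iUnion fun i => sep_range _ (j i)
  have h3 : IsSeparable (Set.univ : Set M) := by
    rw [← hd.closure_eq]
    exact h2.closure
  exact isSeparable_univ_iff.1 h3

end Pool.Agent.Helper59.CF2.SEPM
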